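import Mathlib
import Pool.Agent.Helper99.ExoticDefs
import Pool.Agent.Helper99.ExoticMain

/-!
# Classification of exotic embeddings of roots of unity

We classify all exotic embeddings `μ_c → μ_{cd}` with `c ≥ 4`, up to equivalence.
The definitions are in `Pool.Agent.Helper99.ExoticDefs`.
-/

namespace Pool.Agent.Results.MP_eba27c_nt.Classification

open Pool.Agent.Helper99.Exotic

/-- Classification of exotic embeddings `μ_c → μ_{cd}` for `c ≥ 4`. -/
theorem result (c d : ℕ) (hc : 4 ≤ c) (hd : 1 ≤ d) :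
    (∀ x : Code, x.Valid c (c * d) →
      ∃ ℓ : rootsOfUnity c ℂ → rootsOfUnity (c * d) ℂ, Realizes ℓ x ∧ IsExotic ℓ) ∧
    (∀ ℓ : rootsOfUnity c ℂ → rootsOfUnity (c * d) ℂ, IsExotic ℓ →
      ∃ x : Code, x.Valid c (c * d) ∧ ∃ ℓ', Equivalent ℓ ℓ' ∧ Realizes ℓ' x) ∧
    (∀ x x' : Code, x.Valid c (c * d) → x'.Valid c (c * d) →
      ∀ ℓ ℓ' : rootsOfUnity c ℂ → rootsOfUnity (c * d) ℂ, Realizes ℓ x → Realizes ℓ' x' →
        (Equivalent ℓ ℓ' ↔ x.Same x')) :=
  classification c d hc hd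

end Pool.Agent.Results.MP_eba27c_nt.Classification
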